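import Mathlib
import Pool.Agent.H.MP_4f027a_co.F

namespace Pool.Agent.Results.MP_4f027a_co.No

open Pool.Agent.H.MP_4f027a_co

/-- For every real `q > 0` (in particular every positive integer `q`), two reduced words of the same
permutation with the same distribution at this `q` lie in the same commutation class. -/
theorem result (q : ℝ) (hq : 0 < q) (m : ℕ) (R₁ R₂ : List (Fin m)) (h₁ : Reduced R₁)
    (h₂ : Reduced R₂) (hw : wp R₁ = wp R₂) (hP : ∀ w, P q R₁ w = P q R₂ w) :
    Relation.ReflTransGen CommMove R₁ R₂ :=
  main hq h₂ h₁ hw.symm fun w => (hP w).symm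

end Pool.Agent.Results.MP_4f027a_co.No
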